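import Pool.Agent.H85.ERG.Targets

/-!
# Row MI of the board `erb_modules`: invariance of the integral over points and directions
-/

namespace Pool.Agent.H21.ERG

open MeasureTheory Set Metric Filter Topology Pool.Agent.H85.ERG Pool.Agent.H93.EN
open Pool.Agent.H93.BL hiding T_B1 T_B2 T_B3 T_SB T_SC

theorem per_shift (F : ℝ → ENNReal) (T : ℝ) (hT : 0 < T) (hF : Function.Periodic F T) (b : ℝ) :
    ∫⁻ θ in Ioo 0 T, F (b + θ) = ∫⁻ θ in Ioo 0 T, F θ := by
  have h1 : ∫⁻ θ in Ioo 0 T, F (b + θ) = ∫⁻ θ in Ioc 0 T, F (b + θ) :=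
    setLIntegral_congr Ioo_ae_eq_Ioc
  have h2 : ∫⁻ θ in Ioo 0 T, F θ = ∫⁻ θ in Ioc 0 T, F θ :=
    setLIntegral_congr Ioo_ae_eq_Ioc
  have h3 : ∫⁻ θ in Ioc 0 T, F (b + θ) = ∫⁻ θ in Ioc b (b + T), F θ := by
    rw [← lintegral_indicator measurableSet_Ioc, ← lintegral_indicator measurableSet_Ioc,
      ← lintegral_add_left_eq_self (μ := volume) (fun θ => (Ioc b (b + T)).indicator F θ) b]
    refine lintegral_congr fun θ => ?_
    by_cases h : θ ∈ Ioc 0 T
    · rw [indicator_of_mem h, indicator_of_mem]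
      exact ⟨by linarith [h.1], by linarith [h.2]⟩
    · rw [indicator_of_notMem h, indicator_of_notMem]
      rintro ⟨h4, h5⟩
      exact h ⟨by linarith, by linarith⟩
  have h4 : ∫⁻ θ in Ioc b (b + T), F θ = ∫⁻ θ in Ioc 0 T, F θ := by
    have : VAddInvariantMeasure (AddSubgroup.zmultiples T) ℝ volume :=
      ⟨fun c s _ => measure_preimage_add _ _ _⟩
    have h5 := isAddFundamentalDomain_Ioc hT (0 : ℝ) (μ := volume)
    rw [zero_add] at h5
    exact IsAddFundamentalDomain.setLIntegral_eq (G := AddSubgroup.zmultiples T)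
      (isAddFundamentalDomain_Ioc hT b) h5 F hF.map_vadd_zmultiples
  rw [h1, h2, h3, h4]

theorem per_neg (F : ℝ → ENNReal) (T : ℝ) (hT : 0 < T) (hF : Function.Periodic F T) (b : ℝ) :
    ∫⁻ θ in Ioo 0 T, F (b - θ) = ∫⁻ θ in Ioo 0 T, F θ := by
  have hG : Function.Periodic (fun θ => F (-θ)) T := by
    intro θ
    change F (-(θ + T)) = F (-θ)
    rw [← hF (-(θ + T))]
    congr 1
    ring
  have h1 : ∫⁻ θ in Ioo 0 T, F (b - θ) = ∫⁻ θ in Ioo 0 T, F (-θ) := by
    rw [← per_shift (fun θ => F (-θ)) T hT hG (-b)]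
    refine lintegral_congr fun θ => ?_
    congr 1
    ring
  have h2 : ∫⁻ θ in Ioo 0 T, F (-θ) = ∫⁻ θ in Ioo 0 T, F (-T + θ) := by
    rw [← lintegral_indicator measurableSet_Ioo, ← lintegral_indicator measurableSet_Ioo,
      ← lintegral_sub_left_eq_self (μ := volume) (fun θ => (Ioo 0 T).indicator
        (fun θ => F (-T + θ)) θ) T]
    refine lintegral_congr fun θ => ?_
    by_cases h : θ ∈ Ioo 0 T
    · rw [indicator_of_mem h, indicator_of_mem]
      · congr 1
        ring
      · exact ⟨by linarith [h.2], by linarith [h.1]⟩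
    · rw [indicator_of_notMem h, indicator_of_notMem]
      rintro ⟨h4, h5⟩
      exact h ⟨by linarith, by linarith⟩
  rw [h1, h2, per_shift F T hT hF (-T)]

theorem cont_refl {ι : Type} (P : Polygon ι) (j : ι) : Continuous (P.refl j) := by
  unfold Polygon.refl
  exact continuous_const.mul Complex.continuous_conj

theorem cont_aff {ι : Type} (P : Polygon ι) (j : ι) : Continuous (P.aff j) := by
  have h : P.aff j = fun y => P.p j + P.refl j (y - P.p j) := by
    funext y
    rw [P.aff_eq]
  rw [h]
  exact continuous_const.add ((cont_refl P j).comp (continuous_id.sub continuous_const))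

theorem mp_refl {ι : Type} (P : Polygon ι) (j : ι) :
    MeasurePreserving (P.refl j) volume volume := by
  have hu : ‖P.u j ^ 2‖ = 1 := by rw [norm_pow, P.norm_u j, one_pow]
  let c : Circle := ⟨P.u j ^ 2, mem_sphere_zero_iff_norm.2 hu⟩
  have h := (Complex.conjLIE.trans (rotation c)).measurePreserving
  exact h

theorem lint_aff {ι : Type} (P : Polygon ι) (j : ι) (f : ℂ → ENNReal) (hf : Measurable f) :
    ∫⁻ x, f (P.aff j x) = ∫⁻ x, f x := by
  have h1 : ∀ x, f (P.aff j x) = f (P.p j + P.refl j (x - P.p j)) := fun x => by rw [P.aff_eq]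
  rw [lintegral_congr h1,
    lintegral_sub_right_eq_self (μ := volume) (fun x => f (P.p j + P.refl j x)) (P.p j),
    (mp_refl P j).lintegral_comp (f := fun x => f (P.p j + x)) (by fun_prop),
    lintegral_add_left_eq_self (μ := volume) f (P.p j)]

theorem mi : T_MI := by
  intro ι P h g hg
  have hpi : 0 < 2 * Real.pi := by positivity
  have hce : Continuous fun θ : ℝ => Complex.exp ((θ : ℂ) * Complex.I) := by fun_prop
  have hper : ∀ x : ℂ, Function.Periodic (fun θ : ℝ => g (x, Complex.exp ((θ : ℂ) * Complex.I)))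
      (2 * Real.pi) := by
    intro x θ
    have e : Complex.exp (((θ + 2 * Real.pi : ℝ) : ℂ) * Complex.I) =
        Complex.exp ((θ : ℂ) * Complex.I) := by
      push_cast
      rw [add_mul, Complex.exp_add, Complex.exp_two_pi_mul_I, mul_one]
    change g (x, Complex.exp (((θ + 2 * Real.pi : ℝ) : ℂ) * Complex.I)) = _
    rw [e]
  refine ⟨fun j => ?_, ?_, ?_⟩
  · have hm1 : Measurable fun p : ℂ × ℝ =>
        g (P.aff j (p.1 + (h : ℂ) * Complex.exp ((p.2 : ℂ) * Complex.I)),
          P.refl j (Complex.exp ((p.2 : ℂ) * Complex.I))) := by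
      apply hg.comp
      apply Continuous.measurable
      refine Continuous.prodMk ?_ ?_
      · exact (cont_aff P j).comp (by fun_prop)
      · exact (cont_refl P j).comp (by fun_prop)
    have hm2 : Measurable fun p : ℂ × ℝ =>
        g (p.1, P.refl j (Complex.exp ((p.2 : ℂ) * Complex.I))) := by
      apply hg.comp
      apply Continuous.measurable
      refine Continuous.prodMk continuous_fst ?_
      exact (cont_refl P j).comp (by fun_prop)
    rw [lintegral_lintegral_swap (f := fun (x : ℂ) (θ : ℝ) =>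
      g (P.aff j (x + (h : ℂ) * Complex.exp ((θ : ℂ) * Complex.I)),
          P.refl j (Complex.exp ((θ : ℂ) * Complex.I)))) hm1.aemeasurable]
    have h1 : ∀ θ : ℝ, ∫⁻ x, g (P.aff j (x + (h : ℂ) * Complex.exp ((θ : ℂ) * Complex.I)),
          P.refl j (Complex.exp ((θ : ℂ) * Complex.I))) =
        ∫⁻ x, g (x, P.refl j (Complex.exp ((θ : ℂ) * Complex.I))) := by
      intro θ
      rw [lintegral_add_right_eq_self (μ := volume) (fun x => g (P.aff j x,
        P.refl j (Complex.exp ((θ : ℂ) * Complex.I)))),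
        lint_aff P j (fun x => g (x, P.refl j (Complex.exp ((θ : ℂ) * Complex.I))))
          (hg.comp (by fun_prop))]
    rw [lintegral_congr h1, ← lintegral_lintegral_swap (f := fun (x : ℂ) (θ : ℝ) =>
      g (x, P.refl j (Complex.exp ((θ : ℂ) * Complex.I)))) hm2.aemeasurable]
    refine lintegral_congr fun x => ?_
    have h2 : ∀ θ : ℝ, P.refl j (Complex.exp ((θ : ℂ) * Complex.I)) =
        Complex.exp ((((2 * (P.u j).arg - θ : ℝ)) : ℂ) * Complex.I) := by
      intro θ
      have h3 : P.u j = Complex.exp (((P.u j).arg : ℂ) * Complex.I) := by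
        have h4 := Complex.norm_mul_exp_arg_mul_I (P.u j)
        rw [P.norm_u j] at h4
        rw [Complex.ofReal_one, one_mul] at h4
        exact h4.symm
      have h5 : (starRingEnd ℂ) (Complex.exp ((θ : ℂ) * Complex.I)) =
          Complex.exp (-((θ : ℂ) * Complex.I)) := by
        rw [← Complex.exp_conj, map_mul, Complex.conj_ofReal, Complex.conj_I]
        congr 1
        ring
      unfold Polygon.refl
      rw [h5, h3, ← Complex.exp_nat_mul, ← Complex.exp_add, ← h3]
      congr 1
      push_cast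
      ring
    have h6 : ∀ θ : ℝ, g (x, P.refl j (Complex.exp ((θ : ℂ) * Complex.I))) =
        (fun θ : ℝ => g (x, Complex.exp ((θ : ℂ) * Complex.I))) (2 * (P.u j).arg - θ) := by
      intro θ
      rw [h2]
    rw [lintegral_congr h6]
    exact per_neg _ _ hpi (hper x) _
  · have hm1 : Measurable fun p : ℂ × ℝ =>
        g (p.1 + (h : ℂ) * Complex.exp ((p.2 : ℂ) * Complex.I),
          Complex.exp ((p.2 : ℂ) * Complex.I)) := by
      apply hg.comp
      apply Continuous.measurable
      fun_prop
    have hm2 : Measurable fun p : ℂ × ℝ => g (p.1, Complex.exp ((p.2 : ℂ) * Complex.I)) := by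
      apply hg.comp
      apply Continuous.measurable
      fun_prop
    rw [lintegral_lintegral_swap (f := fun (x : ℂ) (θ : ℝ) =>
      g (x + (h : ℂ) * Complex.exp ((θ : ℂ) * Complex.I),
          Complex.exp ((θ : ℂ) * Complex.I))) hm1.aemeasurable,
      lintegral_lintegral_swap (f := fun (x : ℂ) (θ : ℝ) =>
      g (x, Complex.exp ((θ : ℂ) * Complex.I))) hm2.aemeasurable]
    refine lintegral_congr fun θ => ?_
    exact lintegral_add_right_eq_self (μ := volume) (fun x => g (x,
        Complex.exp ((θ : ℂ) * Complex.I))) _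
  · refine lintegral_congr fun x => ?_
    have h6 : ∀ θ : ℝ, g (x, -Complex.exp ((θ : ℂ) * Complex.I)) =
        (fun θ : ℝ => g (x, Complex.exp ((θ : ℂ) * Complex.I))) (Real.pi + θ) := by
      intro θ
      have e : Complex.exp (((Real.pi + θ : ℝ) : ℂ) * Complex.I) =
          -Complex.exp ((θ : ℂ) * Complex.I) := by
        push_cast
        rw [add_mul, Complex.exp_add, Complex.exp_pi_mul_I]
        ring
      change _ = g (x, Complex.exp (((Real.pi + θ : ℝ) : ℂ) * Complex.I))
      rw [e]
    rw [lintegral_congr h6]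
    exact per_shift _ _ hpi (hper x) _

end Pool.Agent.H21.ERG
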