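import Pool.Agent.H85.ERG.Targets

/-!
# Row MP of the board `erb_modules`: the mesh step does not increase the volume of preimages
-/

namespace Pool.Agent.H21.ERG

open MeasureTheory Set Metric Filter Topology Pool.Agent.H85.ERG Pool.Agent.H93.EN
open Pool.Agent.H93.BL hiding T_B1 T_B2 T_B3 T_SB T_SC

/-- the inverse of `tm` -/
noncomputable def im {ι : Type} (P : Polygon ι) (h : ℝ) : Option ι → ℂ × ℂ → ℂ × ℂ
  | none => fun z => (z.1 - (h : ℂ) * z.2, z.2)
  | some j => fun z => (P.aff j z.1 - (h : ℂ) * P.refl j z.2, P.refl j z.2)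

theorem im_tm {ι : Type} (P : Polygon ι) (h : ℝ) (τ : Option ι) (z : ℂ × ℂ) :
    im P h τ (tm P h τ z) = z := by
  cases τ with
  | none =>
    change (z.1 + (h : ℂ) * z.2 - (h : ℂ) * z.2, z.2) = z
    rw [add_sub_cancel_right]
  | some j =>
    change (P.aff j (P.aff j (z.1 + (h : ℂ) * z.2)) - (h : ℂ) * P.refl j (P.refl j z.2),
      P.refl j (P.refl j z.2)) = z
    rw [P.aff_aff, P.refl_refl, add_sub_cancel_right]

theorem tm_im {ι : Type} (P : Polygon ι) (h : ℝ) (τ : Option ι) (z : ℂ × ℂ) :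
    tm P h τ (im P h τ z) = z := by
  cases τ with
  | none =>
    change (z.1 - (h : ℂ) * z.2 + (h : ℂ) * z.2, z.2) = z
    rw [sub_add_cancel]
  | some j =>
    change (P.aff j (P.aff j z.1 - (h : ℂ) * P.refl j z.2 + (h : ℂ) * P.refl j z.2),
      P.refl j (P.refl j z.2)) = z
    rw [sub_add_cancel, P.aff_aff, P.refl_refl]

theorem cont_refl' {ι : Type} (P : Polygon ι) (j : ι) : Continuous (P.refl j) := by
  unfold Polygon.refl
  exact continuous_const.mul Complex.continuous_conj

theorem cont_aff' {ι : Type} (P : Polygon ι) (j : ι) : Continuous (P.aff j) := by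
  have h : P.aff j = fun y => P.p j + P.refl j (y - P.p j) := by
    funext y
    rw [P.aff_eq]
  rw [h]
  exact continuous_const.add ((cont_refl' P j).comp (continuous_id.sub continuous_const))

theorem meas_im {ι : Type} (P : Polygon ι) (h : ℝ) (τ : Option ι) : Measurable (im P h τ) := by
  apply Continuous.measurable
  cases τ with
  | none =>
    change Continuous fun z : ℂ × ℂ => (z.1 - (h : ℂ) * z.2, z.2)
    fun_prop
  | some j =>
    change Continuous fun z : ℂ × ℂ => (P.aff j z.1 - (h : ℂ) * P.refl j z.2, P.refl j z.2)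
    refine Continuous.prodMk (Continuous.sub ?_ (continuous_const.mul ?_)) ?_
    · exact (cont_aff' P j).comp continuous_fst
    · exact (cont_refl' P j).comp continuous_snd
    · exact (cont_refl' P j).comp continuous_snd

theorem mp (h1 : T_TY) (h2 : T_MI) : T_MP := by
  intro ι _ P κ hLS a h ha hh hha A hA
  classical
  have := Fintype.ofFinite ι
  obtain ⟨ty1, ty2, ty3, ty4, ty5⟩ := h1 ι P κ hLS a h ha hh hha
  let E : Option ι → Set (ℂ × ℂ) := fun τ => Ty P κ a h τ ∩ (tm P h τ) ⁻¹' A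
  have hE : ∀ τ, MeasurableSet (E τ) := fun τ => (ty1 τ).1.inter ((ty1 τ).2 hA)
  have hex : Measurable fun p : ℂ × ℝ => (p.1, Complex.exp ((p.2 : ℂ) * Complex.I)) := by
    apply Continuous.measurable
    fun_prop
  have hex1 : ∀ x : ℂ, Measurable fun θ : ℝ => (x, Complex.exp ((θ : ℂ) * Complex.I)) := by
    intro x
    apply Continuous.measurable
    fun_prop
  have hm1 : ∀ B : Set (ℂ × ℂ), MeasurableSet B → Measurable (B.indicator (1 : ℂ × ℂ → ENNReal)) :=
    fun B hB => measurable_one.indicator hB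
  have hin : ∀ B : Set (ℂ × ℂ), MeasurableSet B → Measurable fun x : ℂ =>
      ∫⁻ θ in Ioo 0 (2 * Real.pi), B.indicator (1 : ℂ × ℂ → ENNReal)
        (x, Complex.exp ((θ : ℂ) * Complex.I)) := by
    intro B hB
    exact Measurable.lintegral_prod_right' (f := fun p : ℂ × ℝ => B.indicator
      (1 : ℂ × ℂ → ENNReal) (p.1, Complex.exp ((p.2 : ℂ) * Complex.I))) ((hm1 B hB).comp hex)
  have hsum : ∀ B : Option ι → Set (ℂ × ℂ), (∀ τ, MeasurableSet (B τ)) →
      ∫⁻ x, ∫⁻ θ in Ioo 0 (2 * Real.pi), ∑ τ, (B τ).indicator (1 : ℂ × ℂ → ENNReal)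
        (x, Complex.exp ((θ : ℂ) * Complex.I)) =
      ∑ τ, ∫⁻ x, ∫⁻ θ in Ioo 0 (2 * Real.pi), (B τ).indicator (1 : ℂ × ℂ → ENNReal)
        (x, Complex.exp ((θ : ℂ) * Complex.I)) := by
    intro B hB
    rw [← lintegral_finsetSum _ fun τ _ => hin (B τ) (hB τ)]
    refine lintegral_congr fun x => ?_
    exact lintegral_finsetSum (f := fun (τ : Option ι) (θ : ℝ) =>
      (B τ).indicator (1 : ℂ × ℂ → ENNReal) (x, Complex.exp ((θ : ℂ) * Complex.I))) _
      fun τ _ => ((hm1 (B τ) (hB τ)).comp (hex1 x))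
  let G : Option ι → Set (ℂ × ℂ) := fun τ => (im P h τ) ⁻¹' (E τ)
  have hG : ∀ τ, MeasurableSet (G τ) := fun τ => meas_im P h τ (hE τ)
  have htr : ∀ τ, ∫⁻ x, ∫⁻ θ in Ioo 0 (2 * Real.pi), (E τ).indicator (1 : ℂ × ℂ → ENNReal)
        (x, Complex.exp ((θ : ℂ) * Complex.I)) =
      ∫⁻ x, ∫⁻ θ in Ioo 0 (2 * Real.pi), (G τ).indicator (1 : ℂ × ℂ → ENNReal)
        (x, Complex.exp ((θ : ℂ) * Complex.I)) := by
    intro τ
    have e1 : ∀ z, (E τ).indicator (1 : ℂ × ℂ → ENNReal) z =
        (G τ).indicator (1 : ℂ × ℂ → ENNReal) (tm P h τ z) := by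
      intro z
      by_cases hz : z ∈ E τ
      · rw [indicator_of_mem hz, indicator_of_mem]
        · rfl
        · change im P h τ (tm P h τ z) ∈ E τ
          rw [im_tm]
          exact hz
      · rw [indicator_of_notMem hz, indicator_of_notMem]
        intro h3
        apply hz
        have h4 : im P h τ (tm P h τ z) ∈ E τ := h3
        rw [im_tm] at h4
        exact h4
    obtain ⟨m1, m2, -⟩ := h2 ι P h ((G τ).indicator 1) (hm1 _ (hG τ))
    cases τ with
    | none =>
      rw [← m2]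
      refine lintegral_congr fun x => lintegral_congr fun θ => ?_
      exact e1 _
    | some j =>
      rw [← m1 j]
      refine lintegral_congr fun x => lintegral_congr fun θ => ?_
      exact e1 _
  have hpt1 : ∀ z : ℂ × ℂ, (Pre P κ a h A).indicator (1 : ℂ × ℂ → ENNReal) z ≤
      ∑ τ, (E τ).indicator (1 : ℂ × ℂ → ENNReal) z := by
    intro z
    by_cases hz : z ∈ Pre P κ a h A
    · obtain ⟨τ, h3, h4⟩ := (ty2 A z).1 hz
      rw [indicator_of_mem hz]
      have h5 : (1 : ℂ × ℂ → ENNReal) z = (E τ).indicator (1 : ℂ × ℂ → ENNReal) z := by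
        rw [indicator_of_mem]
        exact ⟨h3, h4⟩
      rw [h5]
      exact Finset.single_le_sum (f := fun τ => (E τ).indicator (1 : ℂ × ℂ → ENNReal) z)
        (fun _ _ => zero_le') (Finset.mem_univ τ)
    · rw [indicator_of_notMem hz]
      exact zero_le'
  have hpt2 : ∀ z : ℂ × ℂ, ∑ τ, (G τ).indicator (1 : ℂ × ℂ → ENNReal) z ≤
      if z.1 ∈ P.Ω then A.indicator (1 : ℂ × ℂ → ENNReal) z else 0 := by
    intro z
    by_cases hz : ∃ τ, z ∈ G τ
    · obtain ⟨τ, hτ⟩ := hz
      have h3 : im P h τ z ∈ E τ := hτ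
      have h4 := ty3 τ _ h3.1
      have h5 : tm P h τ (im P h τ z) ∈ A := h3.2
      rw [tm_im] at h4 h5
      rw [if_pos h4.1, indicator_of_mem h5, Finset.sum_eq_single τ]
      · rw [indicator_of_mem hτ]
      · intro τ' _ hne
        rw [indicator_of_notMem]
        intro h6
        have h7 : im P h τ' z ∈ E τ' := h6
        have h8 : im P h τ' z = im P h τ z :=
          ty5 τ' τ _ _ h7.1 h3.1 (by rw [tm_im, tm_im])
        have h9 := h7.1
        rw [h8] at h9
        exact hne (ty4 τ' τ _ h9 h3.1)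
      · intro h6
        exact absurd (Finset.mem_univ _) h6
    · rw [Finset.sum_eq_zero]
      · exact zero_le'
      · intro τ _
        rw [indicator_of_notMem]
        exact fun h3 => hz ⟨τ, h3⟩
  calc pv P (Pre P κ a h A)
      ≤ ∫⁻ x, ∫⁻ θ in Ioo 0 (2 * Real.pi), ∑ τ, (E τ).indicator (1 : ℂ × ℂ → ENNReal)
        (x, Complex.exp ((θ : ℂ) * Complex.I)) := by
        unfold pv PI
        refine le_trans (setLIntegral_le_lintegral _ _) ?_
        exact lintegral_mono fun x => lintegral_mono fun θ => hpt1 _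
    _ = ∑ τ, ∫⁻ x, ∫⁻ θ in Ioo 0 (2 * Real.pi), (E τ).indicator (1 : ℂ × ℂ → ENNReal)
        (x, Complex.exp ((θ : ℂ) * Complex.I)) := hsum E hE
    _ = ∑ τ, ∫⁻ x, ∫⁻ θ in Ioo 0 (2 * Real.pi), (G τ).indicator (1 : ℂ × ℂ → ENNReal)
        (x, Complex.exp ((θ : ℂ) * Complex.I)) := Finset.sum_congr rfl fun τ _ => htr τ
    _ = ∫⁻ x, ∫⁻ θ in Ioo 0 (2 * Real.pi), ∑ τ, (G τ).indicator (1 : ℂ × ℂ → ENNReal)
        (x, Complex.exp ((θ : ℂ) * Complex.I)) := (hsum G hG).symm
    _ ≤ ∫⁻ x, P.Ω.indicator (fun x => ∫⁻ θ in Ioo 0 (2 * Real.pi),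
          A.indicator (1 : ℂ × ℂ → ENNReal) (x, Complex.exp ((θ : ℂ) * Complex.I))) x := by
        refine lintegral_mono fun x => ?_
        by_cases hx : x ∈ P.Ω
        · rw [indicator_of_mem hx]
          refine lintegral_mono fun θ => ?_
          have h3 := hpt2 (x, Complex.exp ((θ : ℂ) * Complex.I))
          rw [if_pos hx] at h3
          exact h3
        · rw [indicator_of_notMem hx]
          have h3 : ∀ θ : ℝ, ∑ τ, (G τ).indicator (1 : ℂ × ℂ → ENNReal)
              (x, Complex.exp ((θ : ℂ) * Complex.I)) = 0 := by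
            intro θ
            have h4 := hpt2 (x, Complex.exp ((θ : ℂ) * Complex.I))
            rw [if_neg hx] at h4
            exact le_antisymm h4 (zero_le')
          simp only [h3, lintegral_zero, le_refl]
    _ = pv P A := by
        rw [lintegral_indicator P.isOpen.measurableSet]
        rfl

end Pool.Agent.H21.ERG
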